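import Mathlib

/-!
# Arithmetic formulas and the permanent polynomial
-/

namespace J4H36.VK

open MvPolynomial

/-- Arithmetic formulas over `F` in the variables `V`: trees whose leaves are labelled by
variables or constants and whose inner nodes are binary gates `+` or `*`. -/
inductive Formula (F V : Type) : Type
  | var (v : V)
  | const (c : F)
  | add (a b : Formula F V)
  | mul (a b : Formula F V)

namespace Formula

variable {F V : Type}

/-- The polynomial computed by a formula. -/
noncomputable def poly [CommRing F] : Formula F V → MvPolynomial V F
  | var v => X v
  | const c => C c
  | add a b => a.poly + b.poly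
  | mul a b => a.poly * b.poly

/-- The number of leaves labelled by variables. -/
def leaves : Formula F V → ℕ
  | var _ => 1
  | const _ => 0
  | add a b => a.leaves + b.leaves
  | mul a b => a.leaves + b.leaves

/-- The number of leaves labelled by variables in `S`. -/
def cnt (S : V → Prop) [DecidablePred S] : Formula F V → ℕ
  | var v => if S v then 1 else 0
  | const _ => 0
  | add a b => a.cnt S + b.cnt S
  | mul a b => a.cnt S + b.cnt S

/-- The number of leaves labelled by the variable `v`. -/
def occ [DecidableEq V] (φ : Formula F V) (v : V) : ℕ := φ.cnt (fun w => w = v)

end Formula

/-- The `m × m` permanent polynomial. -/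
noncomputable def permPoly (F : Type) [Field F] (m : ℕ) : MvPolynomial (Fin m × Fin m) F :=
  ∑ σ : Equiv.Perm (Fin m), ∏ k, X (k, σ k)

end J4H36.VK
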