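import Mathlib

/-!
# Averaging over cyclic diagonals
-/

namespace J4H36.VK

/-- If all transversal blocks of size `s` have weight more than `B`, then at most `(s - 1) m`
positions have weight at most `B / s`. -/
lemma low_positions (m s B : ℕ) (hs : 1 ≤ s) (w : Fin m × Fin m → ℕ)
    (H : ∀ r c : Fin s → Fin m, Function.Injective r → Function.Injective c →
      B < ∑ j, w (r j, c j)) :
    (Finset.univ.filter (fun p => s * w p ≤ B)).card ≤ (s - 1) * m := by
  classical
  by_contra hcon
  push Not at hcon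
  rcases Nat.eq_zero_or_pos m with hm | hm
  · subst hm
    have : (Finset.univ.filter (fun p : Fin 0 × Fin 0 => s * w p ≤ B)).card = 0 := by
      rw [Finset.card_eq_zero]
      exact Finset.eq_empty_of_forall_notMem (fun p => p.1.elim0)
    omega
  have : NeZero m := ⟨by omega⟩
  obtain ⟨d, -, hd⟩ := Finset.exists_lt_card_fiber_of_mul_lt_card_of_maps_to
    (s := Finset.univ.filter (fun p => s * w p ≤ B)) (t := (Finset.univ : Finset (Fin m)))
    (f := fun p => p.2 - p.1) (n := s - 1) (fun _ _ => Finset.mem_univ _)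
    (by rw [Finset.card_univ, Fintype.card_fin]; rw [mul_comm]; exact hcon)
  obtain ⟨U, hU, hUc⟩ := Finset.exists_subset_card_eq (n := s) (by omega : s ≤ (Finset.filter
    (fun x => x.2 - x.1 = d) (Finset.univ.filter (fun p => s * w p ≤ B))).card)
  have e : Fin s ≃ U := (Finset.equivFinOfCardEq hUc).symm
  have hmem : ∀ j, s * w (e j).1 ≤ B ∧ (e j).1.2 - (e j).1.1 = d := by
    intro j
    have := hU (e j).2
    simp only [Finset.mem_filter, Finset.mem_univ, true_and] at this
    exact this
  have hr : Function.Injective (fun j => (e j).1.1) := by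
    intro a b hab
    apply e.injective
    apply Subtype.ext
    have h1 := (hmem a).2
    have h2 := (hmem b).2
    simp only at hab
    rw [sub_eq_iff_eq_add] at h1 h2
    apply Prod.ext hab
    rw [h1, h2, hab]
  have hc : Function.Injective (fun j => (e j).1.2) := by
    intro a b hab
    apply e.injective
    apply Subtype.ext
    have h1 := (hmem a).2
    have h2 := (hmem b).2
    simp only at hab
    refine Prod.ext ?_ hab
    rw [sub_eq_iff_eq_add] at h1 h2
    rw [h1, h2] at hab
    exact add_left_cancel hab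
  have h3 := H _ _ hr hc
  have h4 : s * ∑ j, w ((e j).1.1, (e j).1.2) ≤ s * B := by
    rw [Finset.mul_sum]
    calc ∑ j, s * w ((e j).1.1, (e j).1.2) ≤ ∑ _j : Fin s, B :=
          Finset.sum_le_sum (fun j _ => (hmem j).1)
      _ = s * B := by simp
  have h5 := Nat.le_of_mul_le_mul_left h4 (by omega)
  omega

lemma total_weight (m s B : ℕ) (hs : 1 ≤ s) (w : Fin m × Fin m → ℕ)
    (H : ∀ r c : Fin s → Fin m, Function.Injective r → Function.Injective c →
      B < ∑ j, w (r j, c j)) :
    (m * m - (s - 1) * m) * (B + 1) ≤ s * ∑ p, w p := by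
  classical
  have h1 := low_positions m s B hs w H
  have h2 : (Finset.univ.filter (fun p => s * w p ≤ B)).card +
      (Finset.univ.filter (fun p => ¬ s * w p ≤ B)).card = m * m := by
    rw [Finset.card_filter_add_card_filter_not, Finset.card_univ, Fintype.card_prod,
      Fintype.card_fin]
  calc (m * m - (s - 1) * m) * (B + 1)
      ≤ (Finset.univ.filter (fun p => ¬ s * w p ≤ B)).card * (B + 1) :=
        Nat.mul_le_mul_right _ (by omega)
    _ = ∑ _p ∈ Finset.univ.filter (fun p => ¬ s * w p ≤ B), (B + 1) := by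
        rw [Finset.sum_const, smul_eq_mul]
    _ ≤ ∑ p ∈ Finset.univ.filter (fun p => ¬ s * w p ≤ B), s * w p := by
        apply Finset.sum_le_sum
        intro p hp
        simp only [Finset.mem_filter, Finset.mem_univ, true_and] at hp
        omega
    _ ≤ ∑ p, s * w p := Finset.sum_le_sum_of_subset (Finset.filter_subset _ _)
    _ = s * ∑ p, w p := by rw [Finset.mul_sum]

/-- The parameter `h` used for matrices of size `m`. -/
lemma log_facts (m : ℕ) (hm : 16 ≤ m) : ∃ h, 1 ≤ h ∧ h + 3 = Nat.log 2 m ∧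
    6 * 2 ^ h + 4 * h ≤ m + 5 ∧ m < 16 * 2 ^ h ∧ 4 * h ≤ m + 2 ∧ 8 * 2 ^ h ≤ m := by
  have h4 : 4 ≤ Nat.log 2 m := by
    exact (Nat.le_log_iff_pow_le (by norm_num) (by omega)).2 hm
  obtain ⟨h, hh⟩ : ∃ h, h + 3 = Nat.log 2 m := ⟨Nat.log 2 m - 3, by omega⟩
  have h5 : 2 ^ (h + 3) ≤ m := by rw [hh]; exact Nat.pow_log_le_self 2 (by omega)
  have h6 : m < 2 ^ (h + 4) := by
    have := Nat.lt_pow_succ_log_self (b := 2) (by norm_num) m
    rw [← hh] at this
    exact this
  have h7 : 2 ^ (h + 3) = 8 * 2 ^ h := by rw [pow_add]; ring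
  have h8 : 2 ^ (h + 4) = 16 * 2 ^ h := by rw [pow_add]; ring
  have h9 : h + 1 ≤ 2 ^ h := Nat.lt_two_pow_self
  refine ⟨h, by omega, hh, ?_, by omega, by omega, by omega⟩
  have h10 : ∀ h : ℕ, 4 * h ≤ 2 * 2 ^ h + 5 := by
    intro h
    induction h with
    | zero => norm_num
    | succ h ih =>
      rcases Nat.eq_zero_or_pos h with h0 | h0
      · subst h0; norm_num
      · have : 2 ≤ 2 ^ h := by
          calc 2 = 2 ^ 1 := rfl
            _ ≤ 2 ^ h := Nat.pow_le_pow_right (by norm_num) h0
        rw [pow_succ]; omega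
  have := h10 h
  omega

end J4H36.VK
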