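import Pool.Agent.J4H36.VK.Ext

/-!
# Row systems and the families they emit

A row system has rows `ι`, private columns `κ` and outer columns `B`.  Its value is the
coefficient of the product of all private column variables in the product of its rows.
-/

namespace J4H36.VK

open MvPolynomial

variable {F : Type} [Field F]

/-- The value of a row system at a point `x` of any commutative `F`-algebra. -/
noncomputable def val {ι κ B : Type} [Fintype ι] [Fintype κ] [Fintype B]
    (A : ι → κ → F) (N : ι → B → F) (R : Type) [CommRing R] [Algebra F R] (x : B → R) : R :=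
  ext κ (∏ i, (C (∑ b, algebraMap F R (N i b) * x b) +
    ∑ k, C (algebraMap F R (A i k)) * X k))

lemma val_addRow {ι κ B : Type} [Fintype ι] [Fintype κ] [Fintype B]
    (A : ι → κ → F) (N : ι → B → F) (l : B → F) (R : Type) [CommRing R] [Algebra F R]
    (x : B → R) :
    val (fun (o : Option ι) k => o.elim 0 (fun i => A i k))
      (fun (o : Option ι) b => o.elim (l b) (fun i => N i b)) R x =
    val A N R x * ∑ b, algebraMap F R (l b) * x b := by
  unfold val
  rw [Fintype.prod_option]
  simp only [Option.elim_none, Option.elim_some, map_zero, zero_mul, Finset.sum_const_zero,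
    add_zero]
  rw [mul_comm, ext_mul_C]

lemma val_extract {ι κ B : Type} [Fintype ι] [Fintype κ] [Fintype B] [DecidableEq B]
    (A : ι → κ → F) (N : ι → B → F) (b0 : B) (R : Type) [CommRing R] [Algebra F R]
    (x : B → R) :
    val (fun i (o : Option κ) => o.elim (N i b0) (fun k => A i k))
      (fun i b => if b = b0 then 0 else N i b) R x =
    (val A N (Polynomial R) (fun b => if b = b0 then Polynomial.X else
      Polynomial.C (x b))).coeff 1 := by
  unfold val
  rw [← ext_option, map_prod]
  congr 2
  apply Finset.prod_congr rfl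
  intro i _
  rw [map_add, optionEquivRight_C, map_sum (optionEquivRight R κ), Fintype.sum_option]
  simp only [Option.elim_none, Option.elim_some, map_mul, optionEquivRight_C,
    optionEquivRight_X_none, optionEquivRight_X_some, Polynomial.algebraMap_apply]
  rw [← add_assoc]
  congr 1
  rw [← map_mul, ← map_add]
  congr 1
  have h : ∀ b, Polynomial.C (algebraMap F R (N i b)) *
      (if b = b0 then Polynomial.X else Polynomial.C (x b)) =
      Polynomial.C (algebraMap F R (if b = b0 then 0 else N i b) * x b) +
      (if b = b0 then Polynomial.C (algebraMap F R (N i b)) * Polynomial.X else 0) := by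
    intro b
    by_cases hb : b = b0
    · simp [hb]
    · simp [hb]
  simp only [h, Finset.sum_add_distrib, Finset.sum_ite_eq', Finset.mem_univ, if_true, map_sum]

lemma val_lin {ι κ B B' : Type} [Fintype ι] [Fintype κ] [Fintype B] [Fintype B']
    (A : ι → κ → F) (N : ι → B → F) (T : B → B' → F) (R : Type) [CommRing R] [Algebra F R]
    (x : B' → R) :
    val A (fun i b' => ∑ b, N i b * T b b') R x =
    val A N R (fun b => ∑ b', algebraMap F R (T b b') * x b') := by
  unfold val
  congr 1
  apply Finset.prod_congr rfl
  intro i _
  congr 2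
  simp only [map_sum, map_mul, Finset.sum_mul, Finset.mul_sum, mul_assoc]
  rw [Finset.sum_comm]

/-- A family of matrices in which every `y j` is exactly one entry, the entries `y j` lie in
distinct rows and distinct columns, and all other entries are constants. -/
def RO {J ι κ : Type} (A : (J → F) → ι → κ → F) : Prop :=
  ∃ (r : J → ι) (c : J → κ), Function.Injective r ∧ Function.Injective c ∧
    (∀ y j, A y (r j) (c j) = y j) ∧
    ∀ i k, (∀ j, ¬ (r j = i ∧ c j = k)) → ∀ y y', A y i k = A y' i k

/-- `f` is emitted by a row system with `nr` rows and `nc` private columns. -/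
def Emits (J B : Type) [Fintype B] (nr nc : ℕ)
    (f : ∀ (R : Type) [CommRing R] [Algebra F R], (J → F) → (B → R) → R) : Prop :=
  ∃ (ι κ : Type) (_ : Fintype ι) (_ : Fintype κ) (A : (J → F) → ι → κ → F) (N : ι → B → F),
    Fintype.card ι = nr ∧ Fintype.card κ = nc ∧ RO A ∧
    ∀ (y : J → F) (R : Type) [CommRing R] [Algebra F R] (x : B → R), val (A y) N R x = f R y x

lemma Emits.congr {J B : Type} [Fintype B] {nr nc : ℕ}
    {f g : ∀ (R : Type) [CommRing R] [Algebra F R], (J → F) → (B → R) → R}
    (h : Emits J B nr nc f)
    (hfg : ∀ (R : Type) [CommRing R] [Algebra F R] (y : J → F) (x : B → R),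
      f R y x = g R y x) : Emits J B nr nc g := by
  obtain ⟨ι, κ, hι, hκ, A, N, h1, h2, h3, h4⟩ := h
  exact ⟨ι, κ, hι, hκ, A, N, h1, h2, h3, fun y R _ _ x => by rw [h4, hfg]⟩

lemma Emits.addRow {J B : Type} [Fintype B] {nr nc : ℕ}
    {f : ∀ (R : Type) [CommRing R] [Algebra F R], (J → F) → (B → R) → R}
    (h : Emits J B nr nc f) (l : B → F) :
    Emits J B (nr + 1) nc (fun R _ _ y x => f R y x * ∑ b, algebraMap F R (l b) * x b) := by
  obtain ⟨ι, κ, hι, hκ, A, N, h1, h2, ⟨r, c, hr, hc, h3, h3'⟩, h4⟩ := h
  refine ⟨Option ι, κ, inferInstance, hκ, fun y o k => o.elim 0 (fun i => A y i k),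
    fun o b => o.elim (l b) (fun i => N i b), ?_, h2, ?_, ?_⟩
  · rw [Fintype.card_option, h1]
  · refine ⟨fun j => some (r j), c, fun a b hab => hr (Option.some_injective _ hab), hc,
      fun y j => h3 y j, ?_⟩
    rintro (_ | i) k hk y y'
    · rfl
    · exact h3' i k (fun j hj => hk j ⟨by simp [hj.1], hj.2⟩) y y'
  · intro y R _ _ x
    exact (val_addRow (A y) N l R x).trans (congrArg (fun p => p * _) (h4 y R x))

lemma Emits.extract {J B : Type} [Fintype B] [DecidableEq B] {nr nc : ℕ}
    {f : ∀ (R : Type) [CommRing R] [Algebra F R], (J → F) → (B → R) → R}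
    (h : Emits J B nr nc f) (b0 : B) :
    Emits J B nr (nc + 1) (fun R _ _ y x => (f (Polynomial R) y
      (fun b => if b = b0 then Polynomial.X else Polynomial.C (x b))).coeff 1) := by
  obtain ⟨ι, κ, hι, hκ, A, N, h1, h2, ⟨r, c, hr, hc, h3, h3'⟩, h4⟩ := h
  refine ⟨ι, Option κ, hι, inferInstance, fun y i o => o.elim (N i b0) (fun k => A y i k),
    fun i b => if b = b0 then 0 else N i b, h1, ?_, ?_, ?_⟩
  · rw [Fintype.card_option, h2]
  · refine ⟨r, fun j => some (c j), hr, fun a b hab => hc (Option.some_injective _ hab),
      fun y j => h3 y j, ?_⟩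
    rintro i (_ | k) hk y y'
    · rfl
    · exact h3' i k (fun j hj => hk j ⟨hj.1, by simp [hj.2]⟩) y y'
  · intro y R _ _ x
    exact (val_extract (A y) N b0 R x).trans
      (congrArg (fun p => Polynomial.coeff p 1) (h4 y (Polynomial R) _))

lemma Emits.lin {J B B' : Type} [Fintype B] [Fintype B'] {nr nc : ℕ}
    {f : ∀ (R : Type) [CommRing R] [Algebra F R], (J → F) → (B → R) → R}
    (h : Emits J B nr nc f) (T : B → B' → F) :
    Emits J B' nr nc (fun R _ _ y x => f R y
      (fun b => ∑ b', algebraMap F R (T b b') * x b')) := by
  obtain ⟨ι, κ, hι, hκ, A, N, h1, h2, h3, h4⟩ := h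
  refine ⟨ι, κ, hι, hκ, A, fun i b' => ∑ b, N i b * T b b', h1, h2, h3, ?_⟩
  intro y R _ _ x
  exact (val_lin (A y) N T R x).trans (h4 y R _)

lemma Emits.reindex {J J' B : Type} [Fintype B] {nr nc : ℕ}
    {f : ∀ (R : Type) [CommRing R] [Algebra F R], (J → F) → (B → R) → R}
    (h : Emits J B nr nc f) (e : J ≃ J') :
    Emits J' B nr nc (fun R _ _ y x => f R (fun j => y (e j)) x) := by
  obtain ⟨ι, κ, hι, hκ, A, N, h1, h2, ⟨r, c, hr, hc, h3, h3'⟩, h4⟩ := h
  refine ⟨ι, κ, hι, hκ, fun y => A (fun j => y (e j)), N, h1, h2,
    ⟨fun j => r (e.symm j), fun j => c (e.symm j), hr.comp e.symm.injective,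
      hc.comp e.symm.injective, ?_, ?_⟩, ?_⟩
  · intro y j
    have := h3 (fun j => y (e j)) (e.symm j)
    simpa using this
  · intro i k hk y y'
    apply h3' i k
    intro j hj
    apply hk (e j)
    simpa using hj
  · intro y R _ _ x
    exact h4 _ R x

lemma Emits.ystep {J B : Type} [Fintype B] [DecidableEq B] {nr nc : ℕ}
    {f : ∀ (R : Type) [CommRing R] [Algebra F R], (J → F) → (B → R) → R}
    (h : Emits J B nr nc f) (be bq : B) (hne : be ≠ bq) :
    Emits (Option J) B (nr + 1) (nc + 2) (fun R _ _ y x =>
      ((f (Polynomial (Polynomial R)) (fun j => y (some j))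
        (fun b => if b = bq then Polynomial.X else if b = be then Polynomial.C Polynomial.X else
          Polynomial.C (Polynomial.C (x b))) *
        (Polynomial.C Polynomial.X + algebraMap F _ (y none) * Polynomial.X)).coeff 1).coeff 1) := by
  obtain ⟨ι, κ, hι, hκ, A, N, h1, h2, ⟨r, c, hr, hc, h3, h3'⟩, h4⟩ := h
  refine ⟨Option ι, Option (Option κ), inferInstance, inferInstance,
    fun y o p => p.elim (o.elim 1 (fun i => N i be)) (fun p => p.elim
      (o.elim (y none) (fun i => N i bq)) (fun k => o.elim 0 (fun i => A (fun j => y (some j)) i k))),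
    fun o b => if b = be then 0 else if b = bq then 0 else o.elim 0 (fun i => N i b), ?_, ?_, ?_, ?_⟩
  · rw [Fintype.card_option, h1]
  · rw [Fintype.card_option, Fintype.card_option, h2]
  · refine ⟨fun o => o.elim none (fun j => some (r j)),
      fun o => o.elim (some none) (fun j => some (some (c j))), ?_, ?_, ?_, ?_⟩
    · rintro (_ | a) (_ | b) hab
      · rfl
      · simp at hab
      · simp at hab
      · simp only [Option.elim_some, Option.some.injEq] at hab
        rw [hr hab]
    · rintro (_ | a) (_ | b) hab
      · rfl
      · simp at hab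
      · simp at hab
      · simp only [Option.elim_some, Option.some.injEq] at hab
        rw [hc hab]
    · rintro y (_ | j)
      · rfl
      · exact h3 (fun j => y (some j)) j
    · rintro (_ | i) (_ | _ | k) hk y y'
      · rfl
      · exact absurd ⟨rfl, rfl⟩ (hk none)
      · rfl
      · rfl
      · rfl
      · exact h3' i k (fun j hj => hk (some j) ⟨by simp [hj.1], by simp [hj.2]⟩) _ _
  · intro y R _ _ x
    set y0 : J → F := fun j => y (some j)
    set l : B → F := fun b => if b = be then 1 else if b = bq then y none else 0 with hl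
    set A1 : Option ι → κ → F := fun o k => o.elim 0 (fun i => A y0 i k) with hA1
    set N1 : Option ι → B → F := fun o b => o.elim (l b) (fun i => N i b) with hN1
    have e1 := fun (R : Type) [CommRing R] [Algebra F R] (x : B → R) =>
      val_addRow (A y0) N l R x
    have e2 := fun (R : Type) [CommRing R] [Algebra F R] (x : B → R) =>
      val_extract A1 N1 bq R x
    have e3 := val_extract (fun i (o : Option κ) => o.elim (N1 i bq) (fun k => A1 i k))
      (fun i b => if b = bq then 0 else N1 i b) be R x
    rw [e2, e1, h4] at e3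
    have hA : (fun o p => p.elim (o.elim 1 (fun i => N i be)) (fun p => p.elim
      (o.elim (y none) (fun i => N i bq)) (fun k => o.elim 0 (fun i => A y0 i k))) :
        Option ι → Option (Option κ) → F) =
      fun i (o : Option (Option κ)) => o.elim (if be = bq then 0 else N1 i be)
        (fun k => k.elim (N1 i bq) (fun k => A1 i k)) := by
      funext o p
      rcases o with _ | i <;> rcases p with _ | _ | k <;>
        simp [hN1, hA1, hl, hne, hne.symm]
    have hN : (fun (o : Option ι) b => if b = be then 0 else if b = bq then 0 else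
        o.elim 0 (fun i => N i b)) =
      fun i b => if b = be then 0 else if b = bq then 0 else N1 i b := by
      funext o b
      by_cases hb1 : b = be
      · simp [hb1]
      · by_cases hb2 : b = bq
        · simp [hb2]
        · rcases o with _ | i
          · simp [hN1, hl, hb1, hb2]
          · simp [hN1, hb1, hb2]
    refine (congrArg₂ (fun a b => val a b R x) hA hN).trans (e3.trans ?_)
    congr 3
    · congr 1
      funext b
      by_cases hb1 : b = be
      · subst hb1; simp [hne]
      · by_cases hb2 : b = bq
        · simp [hb2]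
        · simp [hb1, hb2]
    · have : ∀ b, algebraMap F (Polynomial (Polynomial R)) (l b) *
          (if b = bq then Polynomial.X else
            Polynomial.C (if b = be then Polynomial.X else Polynomial.C (x b))) =
          (if b = be then Polynomial.C Polynomial.X else 0) +
          (if b = bq then algebraMap F _ (y none) * Polynomial.X else 0) := by
        intro b
        by_cases hb1 : b = be
        · subst hb1; simp [hl, hne]
        · by_cases hb2 : b = bq
          · subst hb2; simp [hl, hb1]
          · simp [hl, hb1, hb2]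
      simp only [this, Finset.sum_add_distrib, Finset.sum_ite_eq', Finset.mem_univ, if_true]

end J4H36.VK
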