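import Mathlib

/-!
# Extraction of the squarefree coefficient

`ext κ p` is the coefficient of `∏ k, X k` in `p : MvPolynomial κ R`.
-/

namespace J4H36.VK

open MvPolynomial

/-- The exponent vector with all entries `1`. -/
noncomputable def ones (κ : Type) [Fintype κ] : κ →₀ ℕ :=
  Finsupp.equivFunOnFinite.symm (fun _ => 1)

@[simp] lemma ones_apply (κ : Type) [Fintype κ] (k : κ) : ones κ k = 1 := rfl

/-- The coefficient of `∏ k, X k`. -/
noncomputable def ext (κ : Type) [Fintype κ] {R : Type} [CommRing R] (p : MvPolynomial κ R) : R :=
  coeff (ones κ) p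

lemma ext_mul_C (κ : Type) [Fintype κ] {R : Type} [CommRing R] (p : MvPolynomial κ R) (r : R) :
    ext κ (p * C r) = ext κ p * r := by
  rw [mul_comm, ext, coeff_C_mul, ext, mul_comm]

lemma optionEquivRight_monomial {κ : Type} {R : Type} [CommRing R] (m : Option κ →₀ ℕ) (r : R) :
    optionEquivRight R κ (monomial m r) = monomial m.some (Polynomial.monomial (m none) r) := by
  rw [optionEquivRight_apply, aeval_monomial, Finsupp.prod_option_index]
  · rw [MvPolynomial.monomial_eq, ← Polynomial.C_mul_X_pow_eq_monomial]
    simp only [Option.elim_none, Option.elim_some, map_mul, mul_assoc, map_pow]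
    rfl
  · simp
  · intros; rw [pow_add]

lemma coeff_optionEquivRight {κ : Type} {R : Type} [CommRing R] (p : MvPolynomial (Option κ) R)
    (m : Option κ →₀ ℕ) :
    ((optionEquivRight R κ p).coeff m.some).coeff (m none) = p.coeff m := by
  classical
  induction p using MvPolynomial.induction_on' with
  | monomial j r =>
    rw [optionEquivRight_monomial, coeff_monomial, coeff_monomial]
    by_cases hj : j = m
    · simp [hj]
    · rw [if_neg hj]
      by_cases h : j.some = m.some
      · rw [if_pos h, Polynomial.coeff_monomial, if_neg]
        intro hn
        apply hj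
        ext a
        rcases a with _ | a
        · exact hn
        · exact DFunLike.congr_fun h a
      · rw [if_neg h]; simp
  | add p q hp hq => simp only [map_add, Polynomial.coeff_add, coeff_add, hp, hq]

lemma ones_some (κ : Type) [Fintype κ] : (ones (Option κ)).some = ones κ := by
  ext k; rfl

lemma ext_option (κ : Type) [Fintype κ] {R : Type} [CommRing R] (p : MvPolynomial (Option κ) R) :
    (ext κ (optionEquivRight R κ p)).coeff 1 = ext (Option κ) p := by
  have := coeff_optionEquivRight p (ones (Option κ))
  rw [ones_some] at this
  exact this

end J4H36.VK
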