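import Pool.Agent.J4H36.VK.Defs

/-!
# Arithmetic formulas with few leaves in a block of variables
-/

namespace J4H36.VK

open MvPolynomial

/-- More polynomials than variables: there is an algebraic relation. -/
lemma exists_relation {F P Q : Type} [Field F] [Fintype P] [Fintype Q]
    (h : Fintype.card P < Fintype.card Q) (Φ : Q → MvPolynomial P F) :
    ∃ R : MvPolynomial Q F, R ≠ 0 ∧ aeval Φ R = 0 := by
  by_contra hcon
  push Not at hcon
  have hind : AlgebraicIndependent F Φ := by
    rw [algebraicIndependent_iff]
    intro p hp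
    by_contra hp0
    exact hcon p hp0 hp
  have := hind.cardinalMk_le_trdeg
  rw [MvPolynomial.trdeg_of_isDomain, Cardinal.mk_fintype, Cardinal.mk_fintype] at this
  simp only [Cardinal.lift_natCast, Nat.cast_le] at this
  omega

namespace Formula

variable {F V : Type}

/-- Value of a formula at a point. -/
def ev [CommRing F] (x : V → F) : Formula F V → F
  | var v => x v
  | const c => c
  | add a b => a.ev x + b.ev x
  | mul a b => a.ev x * b.ev x

lemma eval_poly [CommRing F] (x : V → F) (φ : Formula F V) : eval x φ.poly = φ.ev x := by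
  induction φ with
  | var v => simp [poly, ev]
  | const c => simp [poly, ev]
  | add a b iha ihb => simp [poly, ev, iha, ihb]
  | mul a b iha ihb => simp [poly, ev, iha, ihb]

lemma sum_cnt_le {ι : Type} (s : Finset ι) (S : ι → V → Prop) [∀ i, DecidablePred (S i)]
    (hS : ∀ i ∈ s, ∀ j ∈ s, ∀ v, S i v → S j v → i = j) (φ : Formula F V) :
    ∑ i ∈ s, φ.cnt (S i) ≤ φ.leaves := by
  classical
  induction φ with
  | var v =>
    simp only [cnt, leaves]
    rw [← Finset.card_filter]
    apply Finset.card_le_one.2
    intro a ha b hb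
    simp only [Finset.mem_filter] at ha hb
    exact hS a ha.1 b hb.1 v ha.2 hb.2
  | const c => simp [cnt, leaves]
  | add a b iha ihb => simp only [cnt, leaves, Finset.sum_add_distrib]; omega
  | mul a b iha ihb => simp only [cnt, leaves, Finset.sum_add_distrib]; omega

end Formula

/-- Shapes of restricted formulas. -/
inductive Core (J : Type) : Type
  | leaf (j : J)
  | node (b : Bool) (l r : Core J)

namespace Core

variable {J F : Type} [Field F]

/-- Number of leaves. -/
def nl : Core J → ℕ
  | leaf _ => 1
  | node _ l r => l.nl + r.nl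

lemma nl_pos (T : Core J) : 1 ≤ T.nl := by
  induction T with
  | leaf j => exact le_rfl
  | node b l r ihl ihr => simp only [nl]; omega

/-- Index type of the parameters of a shape. -/
def Par : Core J → Type
  | leaf _ => Empty
  | node _ l r => Fin 4 ⊕ (Par l ⊕ Par r)

noncomputable instance instFintypePar : (T : Core J) → Fintype T.Par
  | leaf _ => inferInstanceAs (Fintype Empty)
  | node _ l r =>
    letI := instFintypePar l
    letI := instFintypePar r
    inferInstanceAs (Fintype (Fin 4 ⊕ (Par l ⊕ Par r)))

lemma card_par (T : Core J) : Fintype.card T.Par + 4 = 4 * T.nl := by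
  induction T with
  | leaf j => rfl
  | node b l r ihl ihr =>
    have : Fintype.card (Par (node b l r)) = Fintype.card (Fin 4 ⊕ (Par l ⊕ Par r)) := rfl
    rw [this, Fintype.card_sum, Fintype.card_sum, Fintype.card_fin, nl]
    omega

/-- Generic value of a shape. -/
noncomputable def gen (y : J → F) : (T : Core J) → MvPolynomial T.Par F
  | leaf j => C (y j)
  | node b l r =>
    let u : MvPolynomial (Fin 4 ⊕ (Par l ⊕ Par r)) F :=
      X (.inl 0) * rename (fun p => .inr (.inl p)) (gen y l) + X (.inl 1)
    let w : MvPolynomial (Fin 4 ⊕ (Par l ⊕ Par r)) F :=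
      X (.inl 2) * rename (fun p => .inr (.inr p)) (gen y r) + X (.inl 3)
    if b then u * w else u + w

/-- Parameters of a node. -/
def join (b : Bool) (l r : Core J) (q : Fin 4 → F) (pl : Par l → F) (pr : Par r → F) :
    Par (node b l r) → F :=
  (Sum.elim q (Sum.elim pl pr) : Fin 4 ⊕ (Par l ⊕ Par r) → F)

lemma eval_node (y : J → F) (b : Bool) (l r : Core J) (q : Fin 4 → F) (pl : Par l → F)
    (pr : Par r → F) :
    eval (join b l r q pl pr) (gen y (node b l r)) =
      if b then (q 0 * eval pl (gen y l) + q 1) * (q 2 * eval pr (gen y r) + q 3)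
      else (q 0 * eval pl (gen y l) + q 1) + (q 2 * eval pr (gen y r) + q 3) := by
  have h1 : eval (Sum.elim q (Sum.elim pl pr) : Fin 4 ⊕ (Par l ⊕ Par r) → F)
      (rename (fun p => .inr (.inl p)) (gen y l)) = eval pl (gen y l) := by
    rw [eval_rename]; rfl
  have h2 : eval (Sum.elim q (Sum.elim pl pr) : Fin 4 ⊕ (Par l ⊕ Par r) → F)
      (rename (fun p => .inr (.inr p)) (gen y r)) = eval pr (gen y r) := by
    rw [eval_rename]; rfl
  cases b
  · simp only [gen, Bool.false_eq_true, if_false]
    unfold join
    erw [map_add, map_add, map_mul, map_add, map_mul, eval_X, eval_X, eval_X, eval_X, h1, h2]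
    rfl
  · simp only [gen, if_true]
    unfold join
    erw [map_mul, map_add, map_mul, map_add, map_mul, eval_X, eval_X, eval_X, eval_X, h1, h2]
    rfl

end Core

end J4H36.VK
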