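import Pool.Agent.J4H36.VK.Robust
import Pool.Agent.J4H36.VK.Diag

/-!
# Formula lower bounds for the permanent
-/

namespace J4H36.VK

open MvPolynomial

lemma eval_permPoly {F : Type} [Field F] {m : ℕ} (z : Fin m × Fin m → F) :
    eval z (permPoly F m) = permAt z := by
  rw [permPoly, permAt, ← Matrix.permanent_transpose, Matrix.permanent, map_sum]
  apply Finset.sum_congr rfl
  intro σ _
  rw [map_prod]
  apply Finset.prod_congr rfl
  intro i _
  simp

lemma map_permPoly {F E : Type} [Field F] [Field E] (f : F →+* E) (m : ℕ) :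
    MvPolynomial.map f (permPoly F m) = permPoly E m := by
  simp [permPoly, map_sum, map_prod]

namespace Formula

/-- Change of coefficients in a formula. -/
def mapC {F E V : Type} (f : F → E) : Formula F V → Formula E V
  | var v => var v
  | const c => const (f c)
  | add a b => add (a.mapC f) (b.mapC f)
  | mul a b => mul (a.mapC f) (b.mapC f)

lemma poly_mapC {F E V : Type} [Field F] [Field E] (f : F →+* E) (φ : Formula F V) :
    (φ.mapC f).poly = MvPolynomial.map f φ.poly := by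
  induction φ with
  | var v => simp [mapC, poly]
  | const c => simp [mapC, poly]
  | add a b iha ihb => simp [mapC, poly, iha, ihb]
  | mul a b iha ihb => simp [mapC, poly, iha, ihb]

lemma cnt_mapC {F E V : Type} (f : F → E) (S : V → Prop) [DecidablePred S] (φ : Formula F V) :
    (φ.mapC f).cnt S = φ.cnt S := by
  induction φ with
  | var v => simp [mapC, cnt]
  | const c => simp [mapC, cnt]
  | add a b iha ihb => simp [mapC, cnt, iha, ihb]
  | mul a b iha ihb => simp [mapC, cnt, iha, ihb]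

lemma sum_occ {F V J : Type} [DecidableEq V] [Fintype J] (σ : J → V)
    (hσ : Function.Injective σ) [DecidablePred (fun v => ∃ j, σ j = v)] (φ : Formula F V) :
    ∑ j, φ.occ (σ j) = φ.cnt (fun v => ∃ j, σ j = v) := by
  classical
  unfold occ
  induction φ with
  | var v =>
    simp only [cnt]
    by_cases h : ∃ j, σ j = v
    · rw [if_pos h]
      obtain ⟨j, rfl⟩ := h
      rw [Finset.sum_eq_single j]
      · simp
      · intro i _ hij
        rw [if_neg (fun h => hij (hσ h.symm))]
      · intro h; exact absurd (Finset.mem_univ j) h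
    · rw [if_neg h]
      apply Finset.sum_eq_zero
      intro j _
      rw [if_neg (fun hj => h ⟨j, hj.symm⟩)]
  | const c => simp [cnt]
  | add a b iha ihb => simp only [cnt, Finset.sum_add_distrib, iha, ihb]
  | mul a b iha ihb => simp only [cnt, Finset.sum_add_distrib, iha, ihb]

lemma sum_occ_univ {F V : Type} [DecidableEq V] [Fintype V] (φ : Formula F V) :
    ∑ v, φ.occ v = φ.leaves := by
  classical
  unfold occ
  induction φ with
  | var v => simp [cnt, leaves]
  | const c => simp [cnt, leaves]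
  | add a b iha ihb => simp only [cnt, leaves, Finset.sum_add_distrib, iha, ihb]
  | mul a b iha ihb => simp only [cnt, leaves, Finset.sum_add_distrib, iha, ihb]

end Formula

lemma four_pow (h : ℕ) (hh : 1 ≤ h) : 4 * 4 ^ (h - 1) - 2 < 2 ^ (2 * h) := by
  obtain ⟨k, rfl⟩ : ∃ k, h = k + 1 := ⟨h - 1, by omega⟩
  have h1 : (2 : ℕ) ^ (2 * (k + 1)) = 4 ^ (k + 1) := by rw [pow_mul]; norm_num
  have h2 : (4 : ℕ) ^ (k + 1) = 4 * 4 ^ k := by rw [pow_succ]; ring
  have h3 : 0 < (4 : ℕ) ^ k := by positivity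
  simp only [Nat.add_sub_cancel]
  omega

lemma inj_pair {m s : ℕ} {r c : Fin s → Fin m} (hr : Function.Injective r) :
    Function.Injective (fun j => (r j, c j)) := fun a b hab => hr (congrArg Prod.fst hab)

/-- Robust blockwise bound over `ℂ`. -/
theorem formula_robust (h m : ℕ) (hh : 1 ≤ h) (hm : 6 * 2 ^ h + 4 * h ≤ m + 5) :
    ∃ ε : ℝ, 0 < ε ∧ ∃ Z : Set (Fin m × Fin m → ℂ), Z.Finite ∧
      ∀ φ : Formula ℂ (Fin m × Fin m), (∀ z ∈ Z, ‖eval z φ.poly - eval z (permPoly ℂ m)‖ < ε) →
      ∀ r c : Fin (2 * h) → Fin m, Function.Injective r → Function.Injective c →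
        4 ^ (h - 1) < ∑ j, φ.occ (r j, c j) := by
  classical
  have : Nonempty (Fin (2 * h)) := ⟨⟨0, by omega⟩⟩
  obtain ⟨P, hP, hrel⟩ := formula_rel (Fin (2 * h)) ℂ (4 ^ (h - 1)) (Nat.one_le_pow _ _ (by norm_num))
    (by rw [Fintype.card_fin]; exact four_pow h hh)
  obtain ⟨ε, hε, Z, hZ, hmain⟩ := robust h m hm P hP
  refine ⟨ε, hε, Z, hZ, ?_⟩
  intro φ hφ r c hr hc
  by_contra hcon
  push Not at hcon
  obtain ⟨X, hX, hne⟩ := hmain φ.ev (fun z hz => by
    have := hφ z hz
    rwa [Formula.eval_poly, eval_permPoly] at this) r c hr hc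
  rw [Formula.sum_occ _ (inj_pair hr)] at hcon
  exact hne (hrel _ (fun j => (r j, c j)) inferInstance φ hcon X hX)

/-- Exact blockwise bound over any field in which `2 ≠ 0`. -/
theorem formula_exact {K : Type} [Field K] (h2 : (2 : K) ≠ 0) (h m : ℕ) (hh : 1 ≤ h)
    (hm : 6 * 2 ^ h + 4 * h ≤ m + 5) (φ : Formula K (Fin m × Fin m))
    (hφ : φ.poly = permPoly K m)
    (r c : Fin (2 * h) → Fin m) (hr : Function.Injective r) (hc : Function.Injective c) :
    4 ^ (h - 1) < ∑ j, φ.occ (r j, c j) := by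
  classical
  have : Nonempty (Fin (2 * h)) := ⟨⟨0, by omega⟩⟩
  set E := AlgebraicClosure K
  set ψ : Formula E (Fin m × Fin m) := φ.mapC (algebraMap K E) with hψ
  have hψp : ψ.poly = permPoly E m := by
    rw [hψ, Formula.poly_mapC, hφ, map_permPoly]
  have h2' : (2 : E) ≠ 0 := by
    intro h0
    apply h2
    apply (algebraMap K E).injective
    rw [map_zero, map_ofNat, h0]
  obtain ⟨P, hP, hrel⟩ := formula_rel (Fin (2 * h)) E (4 ^ (h - 1)) (Nat.one_le_pow _ _ (by norm_num))
    (by rw [Fintype.card_fin]; exact four_pow h hh)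
  obtain ⟨X, hX, hne⟩ := exact_block h2' h m hm P hP r c hr hc
  by_contra hcon
  push Not at hcon
  rw [Formula.sum_occ _ (inj_pair hr)] at hcon
  apply hne
  have h3 : ∀ s, permAt (X (bp E s)) = ψ.ev (X (bp E s)) := fun s => by
    rw [← Formula.eval_poly, hψp, eval_permPoly]
  simp only [h3]
  refine hrel _ (fun j => (r j, c j)) inferInstance ψ ?_ X hX
  rw [hψ, Formula.cnt_mapC]
  exact hcon

/-- Numerical consequences of the blockwise bound. -/
lemma numeric {m : ℕ} (hm : 16 ≤ m) : ∃ h, 1 ≤ h ∧ 6 * 2 ^ h + 4 * h ≤ m + 5 ∧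
    ∀ w : Fin m × Fin m → ℕ, (∀ r c : Fin (2 * h) → Fin m,
      Function.Injective r → Function.Injective c → 4 ^ (h - 1) < ∑ j, w (r j, c j)) →
    m ^ 4 ≤ 4096 * Nat.log 2 m * ∑ p, w p ∧
    (Finset.univ.filter (fun p => 2048 * Nat.log 2 m * w p < m ^ 2)).card ≤
      2 * Nat.log 2 m * m := by
  classical
  obtain ⟨h, h1, h3, h4, h5, h6, h7⟩ := log_facts m hm
  refine ⟨h, h1, h4, fun w hH => ?_⟩
  have h8 : m * m < 1024 * 4 ^ (h - 1) := by
    obtain ⟨k, rfl⟩ : ∃ k, h = k + 1 := ⟨h - 1, by omega⟩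
    simp only [Nat.add_sub_cancel]
    have e1 : (2 : ℕ) ^ (k + 1) = 2 * 2 ^ k := by rw [pow_succ]; ring
    have e2 : (4 : ℕ) ^ k = 2 ^ k * 2 ^ k := by
      rw [show (4 : ℕ) = 2 * 2 by norm_num, mul_pow]
    rw [e1] at h5
    have h9 : m < 32 * 2 ^ k := by omega
    calc m * m < (32 * 2 ^ k) * (32 * 2 ^ k) := Nat.mul_lt_mul'' h9 h9
      _ = 1024 * 4 ^ k := by rw [e2]; ring
  have h10 : h ≤ Nat.log 2 m := by omega
  constructor
  · have hT := total_weight m (2 * h) (4 ^ (h - 1)) (by omega) w hH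
    have e3 : m * m ≤ 2 * (m * m - (2 * h - 1) * m) := by
      have : 2 * ((2 * h - 1) * m) ≤ m * m := by
        rw [← mul_assoc]
        exact Nat.mul_le_mul_right m (by omega)
      omega
    have e4 : (m * m) * (m * m) ≤ 2 * (m * m - (2 * h - 1) * m) * (1024 * (4 ^ (h - 1) + 1)) :=
      Nat.mul_le_mul e3 (by omega)
    calc m ^ 4 = (m * m) * (m * m) := by ring
      _ ≤ 2 * (m * m - (2 * h - 1) * m) * (1024 * (4 ^ (h - 1) + 1)) := e4
      _ = 2048 * ((m * m - (2 * h - 1) * m) * (4 ^ (h - 1) + 1)) := by ring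
      _ ≤ 2048 * (2 * h * ∑ p, w p) := Nat.mul_le_mul_left _ hT
      _ = 4096 * h * ∑ p, w p := by ring
      _ ≤ 4096 * Nat.log 2 m * ∑ p, w p :=
        Nat.mul_le_mul_right _ (Nat.mul_le_mul_left _ h10)
  · have hL := low_positions m (2 * h) (4 ^ (h - 1)) (by omega) w hH
    refine le_trans (Finset.card_le_card ?_) (hL.trans ?_)
    · intro p hp
      simp only [Finset.mem_filter, Finset.mem_univ, true_and] at hp ⊢
      have e5 : 2048 * h * w p ≤ 2048 * Nat.log 2 m * w p :=
        Nat.mul_le_mul_right _ (Nat.mul_le_mul_left _ h10)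
      have e6 : 1024 * (2 * h * w p) = 2048 * h * w p := by ring
      have e7 : m ^ 2 = m * m := by ring
      by_contra hc
      push Not at hc
      have e8 : 1024 * 4 ^ (h - 1) < 1024 * (2 * h * w p) := by omega
      omega
    · apply Nat.mul_le_mul_right
      omega

end J4H36.VK
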