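import Pool.Agent.J4H36.VK.Ext

/-!
# From coefficient extraction to permanents
-/

namespace J4H36.VK

open MvPolynomial

lemma coeff_ones_prod_X {ι κ R : Type} [Fintype ι] [Fintype κ] [DecidableEq κ] [CommRing R]
    (p : ι → κ) [Decidable (Function.Bijective p)] :
    coeff (ones κ) (∏ i, X (R := R) (p i)) = if Function.Bijective p then 1 else 0 := by
  classical
  have h1 : (∏ i, X (R := R) (p i)) = monomial (∑ i, Finsupp.single (p i) 1) 1 := by
    rw [MvPolynomial.monomial_sum_one]
    rfl
  rw [h1, coeff_monomial]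
  have h2 : (∑ i, Finsupp.single (p i) 1 = ones κ) ↔ Function.Bijective p := by
    have h3 : ∀ k, (∑ i, Finsupp.single (p i) 1 : κ →₀ ℕ) k =
        (Finset.univ.filter (fun i => p i = k)).card := by
      intro k
      rw [Finsupp.finset_sum_apply, Finset.card_filter]
      apply Finset.sum_congr rfl
      intro i _
      rw [Finsupp.single_apply]
    constructor
    · intro h
      have h4 : ∀ k, (Finset.univ.filter (fun i => p i = k)).card = 1 := by
        intro k; rw [← h3, h]; rfl
      constructor
      · intro a b hab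
        have := Finset.card_le_one.1 (h4 (p b)).le a (by simp [hab]) b (by simp)
        exact this
      · intro k
        obtain ⟨a, ha⟩ := Finset.card_pos.1 (by rw [h4 k]; norm_num)
        exact ⟨a, by simpa using ha⟩
    · intro h
      ext k
      rw [h3, ones_apply, Finset.card_eq_one]
      obtain ⟨a, ha⟩ := h.2 k
      refine ⟨a, ?_⟩
      ext b
      simp only [Finset.mem_filter, Finset.mem_univ, true_and, Finset.mem_singleton]
      constructor
      · intro hb; exact h.1 (hb.trans ha.symm)
      · rintro rfl; exact ha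
  by_cases hp : Function.Bijective p
  · rw [if_pos hp, if_pos (h2.2 hp)]
  · rw [if_neg hp, if_neg (fun h => hp (h2.1 h))]

lemma ext_prod_sum {ι κ R : Type} [Fintype ι] [DecidableEq ι] [Fintype κ] [DecidableEq κ]
    [CommRing R] (A : ι → κ → R) :
    ext κ (∏ i, ∑ k, C (A i k) * X k) = ∑ σ : ι ≃ κ, ∏ i, A i (σ i) := by
  classical
  rw [ext, Finset.prod_univ_sum, coeff_sum, Fintype.piFinset_univ]
  have h : ∀ p : ι → κ, coeff (ones κ) (∏ i, C (A i (p i)) * X (p i)) =
      if Function.Bijective p then ∏ i, A i (p i) else 0 := by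
    intro p
    rw [Finset.prod_mul_distrib, ← map_prod, coeff_C_mul, coeff_ones_prod_X]
    by_cases hp : Function.Bijective p <;> simp [hp]
  simp only [h]
  rw [← Finset.sum_filter]
  symm
  apply Finset.sum_bij (fun (σ : ι ≃ κ) _ => (σ : ι → κ))
  · intro σ _; simp [σ.bijective]
  · intro a _ b _ hab
    exact DFunLike.coe_injective hab
  · intro p hp
    simp only [Finset.mem_filter, Finset.mem_univ, true_and] at hp
    exact ⟨Equiv.ofBijective p hp, Finset.mem_univ _, rfl⟩
  · intro σ _; rfl

lemma sum_equiv_eq_permanent {ι κ R : Type} [Fintype ι] [DecidableEq ι] [Fintype κ]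
    [DecidableEq κ] [CommRing R] {m : ℕ} (A : ι → κ → R) (e1 : ι ≃ Fin m) (e2 : κ ≃ Fin m) :
    ∑ σ : ι ≃ κ, ∏ i, A i (σ i) =
      Matrix.permanent (Matrix.of (fun i j => A (e1.symm i) (e2.symm j))) := by
  rw [← Matrix.permanent_transpose, Matrix.permanent]
  rw [← Equiv.sum_comp (Equiv.equivCongr e1 e2)]
  apply Finset.sum_congr rfl
  intro σ _
  rw [← Equiv.prod_comp e1]
  apply Finset.prod_congr rfl
  intro i _
  simp [Equiv.equivCongr]

end J4H36.VK
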