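import Pool.Agent.J4H36.VK.Emit

/-!
# The relay

From a linear form `∑ a, v a * x a` emitted by a row system we pass to
`∑ b, (∑ a, v a * (M a b + y * ∑ k, N1 a k * N2 k b)) * x b`, reading the new variable `y` once.
-/

namespace J4H36.VK

open Polynomial

/-- Outer columns of a relay. -/
inductive O (B K : Type) : Type
  | x (b : B) | e (k : K) | f (k : K) | q | ep | z
  deriving DecidableEq

/-- The outer columns as a sum type. -/
def O.toSum {B K : Type} : O B K ≃ (B ⊕ (K ⊕ (K ⊕ (Unit ⊕ (Unit ⊕ Unit))))) where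
  toFun o := match o with
    | .x b => .inl b
    | .e k => .inr (.inl k)
    | .f k => .inr (.inr (.inl k))
    | .q => .inr (.inr (.inr (.inl ())))
    | .ep => .inr (.inr (.inr (.inr (.inl ()))))
    | .z => .inr (.inr (.inr (.inr (.inr ()))))
  invFun s := match s with
    | .inl b => .x b
    | .inr (.inl k) => .e k
    | .inr (.inr (.inl k)) => .f k
    | .inr (.inr (.inr (.inl ()))) => .q
    | .inr (.inr (.inr (.inr (.inl ())))) => .ep
    | .inr (.inr (.inr (.inr (.inr ())))) => .z
  left_inv o := by cases o <;> rfl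
  right_inv s := by rcases s with b | k | k | u | u | u <;> rfl

instance {B K : Type} [Fintype B] [Fintype K] : Fintype (O B K) := Fintype.ofEquiv _ O.toSum.symm

lemma O.sum_eq {B K R : Type} [Fintype B] [Fintype K] [AddCommMonoid R] (g : O B K → R) :
    ∑ o, g o = ∑ b, g (.x b) + (∑ k, g (.e k) + (∑ k, g (.f k) + (g .q + (g .ep + g .z)))) := by
  rw [← Equiv.sum_comp O.toSum.symm g, Fintype.sum_sum_type, Fintype.sum_sum_type,
    Fintype.sum_sum_type, Fintype.sum_sum_type, Fintype.sum_sum_type]
  simp [O.toSum]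

set_option linter.unusedSimpArgs false

lemma coeff_C_one' {R : Type} [CommRing R] (a : R) : (C a).coeff 1 = 0 := by
  rw [coeff_C]; simp

variable {F : Type} [Field F]

/-- The state of the relay after the gadgets in `S` have been installed. -/
noncomputable def Gst {J B K : Type} [Fintype B] [Fintype K] [DecidableEq K]
    (al : (J → F) → B → F) (be : (J → F) → K → F) (N2 : K → B → F) (S : Finset K)
    (R : Type) [CommRing R] [Algebra F R] (y : J → F) (x : O B K → R) : R :=
  (∑ b, algebraMap F R (al y b) * x (.x b) + ∑ k ∈ Sᶜ, algebraMap F R (be y k) * x (.e k)) *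
    (x .q + ∑ k ∈ Sᶜ, x (.f k)) +
  x .ep * ∑ k ∈ S, algebraMap F R (be y k) * ∑ b, algebraMap F R (N2 k b) * x (.x b)

lemma gadget {J B K : Type} [Fintype B] [DecidableEq B] [Fintype K] [DecidableEq K] {nr nc : ℕ}
    (h2 : (2 : F) ≠ 0)
    (al : (J → F) → B → F) (be : (J → F) → K → F) (N2 : K → B → F) (S : Finset K) (k0 : K)
    (hk0 : k0 ∉ S)
    (h : Emits J (O B K) nr nc (Gst al be N2 S)) :
    Emits J (O B K) (nr + 3) (nc + 3) (Gst al be N2 (insert k0 S)) := by
  have hS : Sᶜ = insert k0 (insert k0 S)ᶜ := by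
    ext k; simp only [Finset.mem_compl, Finset.mem_insert]
    by_cases hk : k = k0
    · subst hk; simp [hk0]
    · simp [hk]
  have hS' : k0 ∉ (insert k0 S)ᶜ := by simp
  -- three rows
  have a1 := (h.addRow (fun o => match o with
    | .x b => N2 k0 b | .e k => if k = k0 then -1 else 0 | .f k => if k = k0 then 1/2 else 0
    | .q => 0 | .ep => 0 | .z => 1)).congr (g := fun R _ _ y x => Gst al be N2 S R y x *
      (∑ b, algebraMap F R (N2 k0 b) * x (.x b) - x (.e k0) + algebraMap F R (1/2) * x (.f k0) +
        x .z)) (by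
    intro R _ _ y x
    simp only [O.sum_eq, apply_ite (algebraMap F R), ite_mul, map_neg, map_one, map_zero,
      zero_mul, one_mul, Finset.sum_ite_eq', Finset.mem_univ, if_true]
    ring)
  have a2 := (a1.addRow (fun o => match o with
    | .x b => 0 | .e k => if k = k0 then -1 else 0 | .f k => if k = k0 then 1/2 else 0
    | .q => 0 | .ep => 1 | .z => 1)).congr (g := fun R _ _ y x => Gst al be N2 S R y x *
      (∑ b, algebraMap F R (N2 k0 b) * x (.x b) - x (.e k0) + algebraMap F R (1/2) * x (.f k0) +
        x .z) * (x .ep - x (.e k0) + algebraMap F R (1/2) * x (.f k0) + x .z)) (by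
    intro R _ _ y x
    simp only [O.sum_eq, apply_ite (algebraMap F R), ite_mul, map_neg, map_one, map_zero,
      zero_mul, one_mul, Finset.sum_ite_eq', Finset.mem_univ, if_true, Finset.sum_const_zero]
    ring)
  have a3 := (a2.addRow (fun o => match o with
    | .x b => 0 | .e k => if k = k0 then 1 else 0 | .f k => if k = k0 then -(1/2) else 0
    | .q => 0 | .ep => 0 | .z => 1)).congr (g := fun R _ _ y x => Gst al be N2 S R y x *
      (∑ b, algebraMap F R (N2 k0 b) * x (.x b) - x (.e k0) + algebraMap F R (1/2) * x (.f k0) +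
        x .z) * (x .ep - x (.e k0) + algebraMap F R (1/2) * x (.f k0) + x .z) *
        (x .z + x (.e k0) - algebraMap F R (1/2) * x (.f k0))) (by
    intro R _ _ y x
    simp only [O.sum_eq, apply_ite (algebraMap F R), ite_mul, map_neg, map_one, map_zero,
      zero_mul, one_mul, Finset.sum_ite_eq', Finset.mem_univ, if_true, Finset.sum_const_zero]
    ring)
  -- extraction of z
  have b1 := (a3.extract .z).congr (g := fun R _ _ y x => Gst al be N2 S R y x *
    ((∑ b, algebraMap F R (N2 k0 b) * x (.x b)) * x .ep -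
      (-x (.e k0) + algebraMap F R (1/2) * x (.f k0)) ^ 2)) (by
    intro R _ _ y x
    simp only [Gst, 
      zero_mul, one_mul, Finset.sum_const_zero,
      reduceCtorEq, if_false, ite_false, ite_true, mul_coeff_one, mul_coeff_zero, coeff_add,
      coeff_C_one', coeff_C_zero, coeff_X_zero, coeff_X_one, coeff_neg, add_zero, zero_add,
      finset_sum_coeff, Polynomial.algebraMap_apply, mul_zero, mul_one, neg_mul, coeff_sub,
      sub_zero]
    ring)
  have b2 := (b1.extract (.e k0)).congr (g := fun R _ _ y x =>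
    ((∑ b, algebraMap F R (al y b) * x (.x b) +
        ∑ k ∈ (insert k0 S)ᶜ, algebraMap F R (be y k) * x (.e k)) *
      (x .q + (x (.f k0) + ∑ k ∈ (insert k0 S)ᶜ, x (.f k))) +
      x .ep * ∑ k ∈ S, algebraMap F R (be y k) * ∑ b, algebraMap F R (N2 k b) * x (.x b)) *
      (2 * algebraMap F R (1/2) * x (.f k0)) +
    algebraMap F R (be y k0) * (x .q + (x (.f k0) + ∑ k ∈ (insert k0 S)ᶜ, x (.f k))) *
      ((∑ b, algebraMap F R (N2 k0 b) * x (.x b)) * x .ep -
        (algebraMap F R (1/2) * x (.f k0)) ^ 2)) (by
    intro R _ _ y x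
    simp only [Gst, hS, Finset.sum_insert hS']
    have e0 : ∀ k ∈ (insert k0 S)ᶜ, (O.e k : O B K) ≠ O.e k0 := by
      intro k hk hkk
      simp only [O.e.injEq] at hkk
      subst hkk
      exact hS' hk
    have e1 : ∑ k ∈ (insert k0 S)ᶜ, algebraMap F R[X] (be y k) *
        (if (O.e k : O B K) = O.e k0 then (Polynomial.X : R[X]) else Polynomial.C (x (.e k))) =
        ∑ k ∈ (insert k0 S)ᶜ, Polynomial.C (algebraMap F R (be y k)) *
          Polynomial.C (x (.e k)) := by
      apply Finset.sum_congr rfl
      intro k hk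
      rw [if_neg (e0 k hk), Polynomial.algebraMap_apply]
    rw [e1]
    simp only [reduceCtorEq, if_false, ite_false, ite_true, mul_coeff_one, mul_coeff_zero, coeff_add,
      coeff_C_one', coeff_C_zero, coeff_X_zero, coeff_X_one, coeff_neg, add_zero, zero_add,
      finset_sum_coeff, Polynomial.algebraMap_apply, mul_zero, mul_one, neg_mul, zero_mul,
      Finset.sum_const_zero, pow_two, coeff_sub, Algebra.algebraMap_self, RingHom.id_apply]
    ring)
  have b3 := (b2.extract (.f k0)).congr (g := Gst al be N2 (insert k0 S)) (by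
    intro R _ _ y x
    have e0 : ∀ k ∈ (insert k0 S)ᶜ, (O.f k : O B K) ≠ O.f k0 := by
      intro k hk hkk
      simp only [O.f.injEq] at hkk
      subst hkk
      exact hS' hk
    have e1 : ∑ k ∈ (insert k0 S)ᶜ,
        (if (O.f k : O B K) = O.f k0 then (Polynomial.X : R[X]) else Polynomial.C (x (.f k))) =
        ∑ k ∈ (insert k0 S)ᶜ, Polynomial.C (x (.f k)) := by
      apply Finset.sum_congr rfl
      intro k hk
      rw [if_neg (e0 k hk)]
    have e2 : (2 : R) * algebraMap F R (1/2) = 1 := by
      have h3 : algebraMap F R (2 * (1/2)) = 1 := by rw [mul_one_div_cancel h2, map_one]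
      rw [map_mul, map_ofNat] at h3
      exact h3
    rw [e1]
    simp only [Gst, Finset.sum_insert hk0]
    simp only [reduceCtorEq, if_false, ite_false, ite_true, mul_coeff_one, mul_coeff_zero, coeff_add,
      coeff_C_one', coeff_C_zero, coeff_X_zero, coeff_X_one, coeff_neg, add_zero, zero_add,
      finset_sum_coeff, Polynomial.algebraMap_apply, mul_zero, mul_one, neg_mul, zero_mul,
      Finset.sum_const_zero, pow_two, coeff_sub, Algebra.algebraMap_self, RingHom.id_apply]
    have e3 : (2 : R[X]).coeff 0 = 2 := by simp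
    rw [e3]
    linear_combination ((∑ b, algebraMap F R (al y b) * x (.x b) +
        ∑ k ∈ (insert k0 S)ᶜ, algebraMap F R (be y k) * x (.e k)) *
      (x .q + ∑ k ∈ (insert k0 S)ᶜ, x (.f k)) +
      x .ep * ∑ k ∈ S, algebraMap F R (be y k) * ∑ b, algebraMap F R (N2 k b) * x (.x b)) * e2)
  exact b3

lemma gadgets {J B K : Type} [Fintype B] [DecidableEq B] [Fintype K] [DecidableEq K] {nr nc : ℕ}
    (h2 : (2 : F) ≠ 0)
    (al : (J → F) → B → F) (be : (J → F) → K → F) (N2 : K → B → F)
    (h : Emits J (O B K) nr nc (Gst al be N2 ∅)) (S : Finset K) :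
    Emits J (O B K) (nr + 3 * S.card) (nc + 3 * S.card) (Gst al be N2 S) := by
  induction S using Finset.induction_on with
  | empty => exact h
  | insert a s ha ih =>
    rw [Finset.card_insert_of_notMem ha]
    exact gadget h2 al be N2 s a ha ih

/-- The relay theorem. -/
theorem relay {J A B K : Type} [Fintype A] [Fintype B] [DecidableEq B] [Fintype K]
    [DecidableEq K] {n : ℕ} (h2 : (2 : F) ≠ 0) (v : (J → F) → A → F)
    (h : Emits J A (n + 1) n (fun R _ _ y x => ∑ a, algebraMap F R (v y a) * x a))
    (M : A → B → F) (N1 : A → K → F) (N2 : K → B → F) (v' : (Option J → F) → B → F)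
    (hv' : ∀ y b, v' y b = ∑ a, v (fun j => y (some j)) a *
      (M a b + y none * ∑ k, N1 a k * N2 k b)) :
    Emits (Option J) B (n + (3 * Fintype.card K + 2) + 1) (n + (3 * Fintype.card K + 2))
      (fun R _ _ y x => ∑ b, algebraMap F R (v' y b) * x b) := by
  have s0 := h.lin (fun a (o : O B K) => match o with
    | .x b => M a b | .e k => N1 a k | .f _ => 0 | .q => 0 | .ep => 0 | .z => 0)
  have s1 := (s0.addRow (fun o => match o with
    | .x _ => 0 | .e _ => 0 | .f _ => 1 | .q => 1 | .ep => 0 | .z => 0)).congr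
    (g := Gst (fun y b => ∑ a, v y a * M a b) (fun y k => ∑ a, v y a * N1 a k) N2 ∅) (by
    intro R _ _ y x
    simp only [O.sum_eq, Gst, map_zero, zero_mul, Finset.sum_const_zero, add_zero, zero_add,
      map_one, one_mul, Finset.sum_empty, mul_zero, Finset.compl_empty]
    congr 1
    · simp only [mul_add, Finset.sum_add_distrib, Finset.mul_sum, map_sum, map_mul,
        Finset.sum_mul, mul_assoc]
      congr 1
      · rw [Finset.sum_comm]
      · rw [Finset.sum_comm]
    · rw [add_comm])
  have s2 := gadgets h2 _ _ N2 s1 Finset.univ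
  have s3 := (s2.ystep .ep .q (by simp)).congr (g := fun R _ _ y x =>
    ∑ b, algebraMap F R (∑ a, v (fun j => y (some j)) a * M a b) * x (.x b) +
      algebraMap F R (y none) * ∑ k, algebraMap F R (∑ a, v (fun j => y (some j)) a * N1 a k) *
        ∑ b, algebraMap F R (N2 k b) * x (.x b)) (by
    intro R _ _ y x
    simp only [Gst, Finset.compl_univ, Finset.sum_empty, add_zero, reduceCtorEq, if_false,
      ite_false, ite_true, mul_coeff_one, mul_coeff_zero, coeff_add,
      coeff_C_one', coeff_C_zero, coeff_X_zero, coeff_X_one, zero_add,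
      finset_sum_coeff, Polynomial.algebraMap_apply, mul_zero, mul_one, zero_mul,
      Finset.sum_const_zero]
    ring)
  have s4 := (s3.lin (fun (o : O B K) b => match o with
    | .x b' => if b' = b then 1 else 0
    | .e _ => 0 | .f _ => 0 | .q => 0 | .ep => 0 | .z => 0)).congr
    (g := fun R _ _ y x => ∑ b, algebraMap F R (v' y b) * x b) (by
    intro R _ _ y x
    simp only [apply_ite (algebraMap F R), ite_mul, map_one, map_zero, one_mul, zero_mul,
      Finset.sum_ite_eq, Finset.mem_univ, if_true, hv']
    simp only [mul_add, Finset.sum_add_distrib, Finset.mul_sum, map_sum, map_mul,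
        Finset.sum_mul, mul_assoc, map_add, add_mul]
    congr 1
    rw [Finset.sum_comm]
    apply Finset.sum_congr rfl
    intro b _
    rw [Finset.sum_comm]
    apply Finset.sum_congr rfl
    intro a _
    apply Finset.sum_congr rfl
    intro k _
    ring)
  convert s4 using 1
  · rw [Finset.card_univ]; omega
  · rw [Finset.card_univ]; omega

end J4H36.VK
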