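import Pool.Agent.J4H36.VK.Formula

/-!
# Restricted formulas have shapes; a universal relation
-/

namespace J4H36.VK

open MvPolynomial

/-- The Boolean point of `F^J` with coordinates `s`. -/
def bp {J : Type} (F : Type) [Field F] (s : J → Bool) : J → F := fun j => if s j then 1 else 0

/-- `X` is the family of points in which the coordinates `σ j` are `y j` and all other
coordinates are fixed. -/
def Fam {F J V : Type} (σ : J → V) (X : (J → F) → V → F) : Prop :=
  (∀ y j, X y (σ j) = y j) ∧ ∀ v, (∀ j, σ j ≠ v) → ∀ y y', X y v = X y' v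

lemma eval_aeval {F P Q : Type} [Field F] (Φ : Q → MvPolynomial P F) (g : P → F)
    (R : MvPolynomial Q F) : eval g (aeval Φ R) = eval (fun s => eval g (Φ s)) R := by
  induction R using MvPolynomial.induction_on with
  | C a => simp
  | add p q hp hq => rw [map_add, map_add, map_add, hp, hq]
  | mul_X p i hp => rw [map_mul, map_mul, map_mul, hp, aeval_X, eval_X]

namespace Core

variable {J F : Type} [Field F]

lemma finite_le [Finite J] (n : ℕ) : {T : Core J | T.nl ≤ n}.Finite := by
  induction n with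
  | zero =>
    apply Set.Finite.subset Set.finite_empty
    intro T hT
    have := nl_pos T
    simp only [Set.mem_setOf_eq] at hT
    omega
  | succ n ih =>
    have h1 : (Set.range (leaf : J → Core J)).Finite := Set.finite_range _
    have h2 : ((fun p : Bool × Core J × Core J => node p.1 p.2.1 p.2.2) ''
        (Set.univ ×ˢ ({T : Core J | T.nl ≤ n} ×ˢ {T : Core J | T.nl ≤ n}))).Finite :=
      (Set.finite_univ.prod (ih.prod ih)).image _
    apply (h1.union h2).subset
    intro T hT
    rcases T with j | ⟨b, l, r⟩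
    · left; exact ⟨j, rfl⟩
    · right
      simp only [Set.mem_setOf_eq, nl] at hT
      have hl := nl_pos l
      have hr := nl_pos r
      refine ⟨(b, l, r), ⟨Set.mem_univ _, ?_, ?_⟩, rfl⟩
      · show l.nl ≤ n; omega
      · show r.nl ≤ n; omega

lemma exists_rel [Fintype J] (T : Core J) (hT : 4 * T.nl - 2 < 2 ^ Fintype.card J) :
    ∃ P : MvPolynomial (J → Bool) F, P ≠ 0 ∧
      ∀ (a b : F) (p : T.Par → F),
        eval (fun s => a * eval p (T.gen (bp F s)) + b) P = 0 := by
  classical
  have hc : Fintype.card (Fin 2 ⊕ T.Par) < Fintype.card (J → Bool) := by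
    have := card_par T
    have := nl_pos T
    rw [Fintype.card_sum, Fintype.card_fin, Fintype.card_fun, Fintype.card_bool]
    omega
  obtain ⟨P, hP, h0⟩ := exists_relation hc (fun s : J → Bool =>
    (X (.inl 0) * rename .inr (T.gen (bp F s)) + X (.inl 1) : MvPolynomial (Fin 2 ⊕ T.Par) F))
  refine ⟨P, hP, fun a b p => ?_⟩
  have h1 := congrArg (eval (Sum.elim ![a, b] p)) h0
  rw [map_zero, eval_aeval] at h1
  rw [← h1]
  congr 1
  congr 1
  funext s
  rw [map_add, map_mul, eval_X, eval_X, eval_rename]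
  rfl

end Core

/-- A single nonzero polynomial vanishing on all value vectors of restricted formulas with at
most `n` leaves in the block. -/
lemma exists_rel_le (J F : Type) [Field F] [Fintype J] [Nonempty J] (n : ℕ) (hn1 : 1 ≤ n)
    (hn : 4 * n - 2 < 2 ^ Fintype.card J) :
    ∃ P : MvPolynomial (J → Bool) F, P ≠ 0 ∧
      (∀ (T : Core J), T.nl ≤ n → ∀ (a b : F) (p : T.Par → F),
        eval (fun s => a * eval p (T.gen (bp F s)) + b) P = 0) ∧
      ∀ c : F, eval (fun _ => c) P = 0 := by
  classical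
  have hfin := Core.finite_le (J := J) n
  have hex : ∀ T : Core J, ∃ P : MvPolynomial (J → Bool) F, P ≠ 0 ∧ (T.nl ≤ n →
      ∀ (a b : F) (p : T.Par → F), eval (fun s => a * eval p (T.gen (bp F s)) + b) P = 0) := by
    intro T
    by_cases hT : T.nl ≤ n
    · obtain ⟨P, h1, h2⟩ := Core.exists_rel (F := F) T (lt_of_le_of_lt (by omega) hn)
      exact ⟨P, h1, fun _ => h2⟩
    · exact ⟨1, one_ne_zero, fun h => absurd h hT⟩
  choose P hP0 hP using hex
  have key : ∀ (T : Core J), T.nl ≤ n → ∀ (a b : F) (p : T.Par → F),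
      eval (fun s => a * eval p (T.gen (bp F s)) + b) (∏ T ∈ hfin.toFinset, P T) = 0 := by
    intro T hT a b p
    rw [map_prod]
    exact Finset.prod_eq_zero (hfin.mem_toFinset.2 hT) (hP T hT a b p)
  refine ⟨∏ T ∈ hfin.toFinset, P T, Finset.prod_ne_zero_iff.2 fun T _ => hP0 T, key, ?_⟩
  intro c
  obtain ⟨j⟩ := ‹Nonempty J›
  have := key (Core.leaf j) hn1 0 c (fun e => e.elim)
  simpa using this

namespace Formula

variable {F V J : Type} [Field F]

/-- Restricting a formula to a block: either no leaf of the block occurs and the value is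
constant, or the values are an affine image of the values of a shape that does not depend on the
other coordinates. -/
lemma exists_core (σ : J → V) [DecidablePred (fun v => ∃ j, σ j = v)] (φ : Formula F V) :
    (φ.cnt (fun v => ∃ j, σ j = v) = 0 ∧
      ∀ X : (J → F) → V → F, Fam σ X → ∃ c, ∀ y, φ.ev (X y) = c) ∨
    ∃ T : Core J, T.nl = φ.cnt (fun v => ∃ j, σ j = v) ∧
      ∀ X : (J → F) → V → F, Fam σ X → ∃ (a b : F) (p : T.Par → F),
        ∀ y, φ.ev (X y) = a * eval p (T.gen y) + b := by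
  induction φ with
  | var v =>
    by_cases hv : ∃ j, σ j = v
    · right
      obtain ⟨j, rfl⟩ := hv
      refine ⟨Core.leaf j, by simp [cnt, Core.nl], ?_⟩
      intro X hX
      refine ⟨1, 0, fun e => e.elim, fun y => ?_⟩
      simp [ev, Core.gen, hX.1]
    · left
      refine ⟨by simp only [cnt, if_neg hv], ?_⟩
      intro X hX
      refine ⟨X (fun _ => 0) v, fun y => ?_⟩
      exact hX.2 v (fun j hj => hv ⟨j, hj⟩) _ _
  | const c =>
    left
    exact ⟨rfl, fun X _ => ⟨c, fun y => rfl⟩⟩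
  | add φ ψ ihφ ihψ =>
    rcases ihφ with ⟨h1, h1'⟩ | ⟨T, h1, h1'⟩ <;> rcases ihψ with ⟨h2, h2'⟩ | ⟨S, h2, h2'⟩
    · left
      refine ⟨by simp only [cnt, h1, h2], fun X hX => ?_⟩
      obtain ⟨c, hc⟩ := h1' X hX
      obtain ⟨d, hd⟩ := h2' X hX
      exact ⟨c + d, fun y => by rw [ev, hc, hd]⟩
    · right
      refine ⟨S, by simp only [cnt, h1, h2, zero_add], fun X hX => ?_⟩
      obtain ⟨c, hc⟩ := h1' X hX
      obtain ⟨a, b, p, hp⟩ := h2' X hX
      exact ⟨a, b + c, p, fun y => by rw [ev, hc, hp]; ring⟩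
    · right
      refine ⟨T, by simp only [cnt, h1, h2, add_zero], fun X hX => ?_⟩
      obtain ⟨a, b, p, hp⟩ := h1' X hX
      obtain ⟨c, hc⟩ := h2' X hX
      exact ⟨a, b + c, p, fun y => by rw [ev, hc, hp]; ring⟩
    · right
      refine ⟨Core.node false T S, by simp only [cnt, Core.nl, h1, h2], fun X hX => ?_⟩
      obtain ⟨a, b, p, hp⟩ := h1' X hX
      obtain ⟨c, d, q, hq⟩ := h2' X hX
      refine ⟨1, 0, Core.join false T S ![a, b, c, d] p q,
        fun y => ?_⟩
      rw [Core.eval_node, ev, hp, hq]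
      simp
  | mul φ ψ ihφ ihψ =>
    rcases ihφ with ⟨h1, h1'⟩ | ⟨T, h1, h1'⟩ <;> rcases ihψ with ⟨h2, h2'⟩ | ⟨S, h2, h2'⟩
    · left
      refine ⟨by simp only [cnt, h1, h2], fun X hX => ?_⟩
      obtain ⟨c, hc⟩ := h1' X hX
      obtain ⟨d, hd⟩ := h2' X hX
      exact ⟨c * d, fun y => by rw [ev, hc, hd]⟩
    · right
      refine ⟨S, by simp only [cnt, h1, h2, zero_add], fun X hX => ?_⟩
      obtain ⟨c, hc⟩ := h1' X hX
      obtain ⟨a, b, p, hp⟩ := h2' X hX
      exact ⟨c * a, c * b, p, fun y => by rw [ev, hc, hp]; ring⟩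
    · right
      refine ⟨T, by simp only [cnt, h1, h2, add_zero], fun X hX => ?_⟩
      obtain ⟨a, b, p, hp⟩ := h1' X hX
      obtain ⟨c, hc⟩ := h2' X hX
      exact ⟨a * c, b * c, p, fun y => by rw [ev, hc, hp]; ring⟩
    · right
      refine ⟨Core.node true T S, by simp only [cnt, Core.nl, h1, h2], fun X hX => ?_⟩
      obtain ⟨a, b, p, hp⟩ := h1' X hX
      obtain ⟨c, d, q, hq⟩ := h2' X hX
      refine ⟨1, 0, Core.join true T S ![a, b, c, d] p q,
        fun y => ?_⟩
      rw [Core.eval_node, ev, hp, hq]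
      simp

end Formula

/-- The value vectors of formulas with few leaves in a block satisfy one fixed nontrivial
polynomial equation. -/
theorem formula_rel (J F : Type) [Field F] [Fintype J] [Nonempty J] (n : ℕ) (hn1 : 1 ≤ n)
    (hn : 4 * n - 2 < 2 ^ Fintype.card J) :
    ∃ P : MvPolynomial (J → Bool) F, P ≠ 0 ∧
      ∀ (V : Type) (σ : J → V) (_ : DecidablePred (fun v => ∃ j, σ j = v)) (φ : Formula F V),
        φ.cnt (fun v => ∃ j, σ j = v) ≤ n → ∀ X : (J → F) → V → F, Fam σ X →
        eval (fun s => φ.ev (X (bp F s))) P = 0 := by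
  obtain ⟨P, hP0, hP1, hP2⟩ := exists_rel_le J F n hn1 hn
  refine ⟨P, hP0, ?_⟩
  intro V σ _ φ hφ X hX
  rcases φ.exists_core σ with ⟨_, h⟩ | ⟨T, hT, h⟩
  · obtain ⟨c, hc⟩ := h X hX
    simp only [hc]
    exact hP2 c
  · obtain ⟨a, b, p, hp⟩ := h X hX
    simp only [hp]
    exact hP1 T (by omega) a b p

end J4H36.VK
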