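import Pool.Agent.J4H36.VK.Univ
import Pool.Agent.J4H36.VK.Shape

/-!
# Value vectors of the permanent on blocks are arbitrary
-/

namespace J4H36.VK

open MvPolynomial

/-- The permanent of the matrix with entries `z (i, j)`. -/
def permAt {F : Type} [Field F] {m : ℕ} (z : Fin m × Fin m → F) : F :=
  (Matrix.of (fun i j => z (i, j))).permanent

lemma prod_wt_bp {F J : Type} [Field F] [Fintype J] [DecidableEq J] (a s : J → Bool) :
    ∏ j, wt (a j) (bp F s j) = if a = s then 1 else 0 := by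
  by_cases h : a = s
  · subst h
    rw [if_pos rfl]
    apply Finset.prod_eq_one
    intro j _
    unfold wt bp
    cases a j <;> simp
  · rw [if_neg h]
    obtain ⟨j, hj⟩ := Function.ne_iff.1 h
    apply Finset.prod_eq_zero (Finset.mem_univ j)
    unfold wt bp
    cases ha : a j <;> cases hs : s j <;> simp_all

/-- Every value vector on a block is a value vector of the permanent. -/
lemma perm_block {F : Type} [Field F] (h2 : (2 : F) ≠ 0) (h m : ℕ)
    (hm : 6 * 2 ^ h + 4 * h ≤ m + 5) (r c : Fin (2 * h) → Fin m) (hr : Function.Injective r)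
    (hc : Function.Injective c) (g : (Fin (2 * h) → Bool) → F) :
    ∃ X : (Fin (2 * h) → F) → Fin m × Fin m → F, Fam (fun j => (r j, c j)) X ∧
      ∀ s, permAt (X (bp F s)) = g s := by
  obtain ⟨A, hA1, hA2, hA3⟩ := universality h2 h m hm (Fin (2 * h)) (by simp) r c hr hc g
  refine ⟨fun y p => A y p.1 p.2, ⟨fun y j => hA1 y j, ?_⟩, ?_⟩
  · rintro ⟨i, k⟩ hv y y'
    exact hA2 i k (fun j hj => hv j (by simp [hj.1, hj.2])) y y'
  · intro s
    have : permAt (fun p : Fin m × Fin m => A (bp F s) p.1 p.2) = (A (bp F s)).permanent := rfl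
    rw [this, hA3]
    simp only [prod_wt_bp, mul_ite, mul_one, mul_zero, Finset.sum_ite_eq', Finset.mem_univ,
      if_true]

/-- Exact version over an infinite field. -/
theorem exact_block {F : Type} [Field F] [Infinite F] (h2 : (2 : F) ≠ 0) (h m : ℕ)
    (hm : 6 * 2 ^ h + 4 * h ≤ m + 5) (P : MvPolynomial (Fin (2 * h) → Bool) F) (hP : P ≠ 0)
    (r c : Fin (2 * h) → Fin m) (hr : Function.Injective r) (hc : Function.Injective c) :
    ∃ X : (Fin (2 * h) → F) → Fin m × Fin m → F, Fam (fun j => (r j, c j)) X ∧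
      eval (fun s => permAt (X (bp F s))) P ≠ 0 := by
  obtain ⟨g, hg⟩ : ∃ g, eval g P ≠ 0 := by
    by_contra hcon
    push Not at hcon
    exact hP (MvPolynomial.funext (fun g => by rw [hcon g, map_zero]))
  obtain ⟨X, hX, hX'⟩ := perm_block h2 h m hm r c hr hc g
  refine ⟨X, hX, ?_⟩
  simp only [hX']
  exact hg

/-- Robust version over `ℂ`: it is enough to approximate the permanent on a finite set. -/
theorem robust (h m : ℕ) (hm : 6 * 2 ^ h + 4 * h ≤ m + 5)
    (P : MvPolynomial (Fin (2 * h) → Bool) ℂ) (hP : P ≠ 0) :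
    ∃ ε : ℝ, 0 < ε ∧ ∃ Z : Set (Fin m × Fin m → ℂ), Z.Finite ∧
      ∀ f : (Fin m × Fin m → ℂ) → ℂ, (∀ z ∈ Z, ‖f z - permAt z‖ < ε) →
      ∀ r c : Fin (2 * h) → Fin m, Function.Injective r → Function.Injective c →
      ∃ X : (Fin (2 * h) → ℂ) → Fin m × Fin m → ℂ, Fam (fun j => (r j, c j)) X ∧
        eval (fun s => f (X (bp ℂ s))) P ≠ 0 := by
  classical
  obtain ⟨g, hg⟩ : ∃ g, eval g P ≠ 0 := by
    by_contra hcon
    push Not at hcon
    exact hP (MvPolynomial.funext (fun g => by rw [hcon g, map_zero]))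
  have hcont : Continuous (fun x : (Fin (2 * h) → Bool) → ℂ => eval x P) := P.continuous_eval
  obtain ⟨ε, hε, hball⟩ := Metric.eventually_nhds_iff.1
    ((hcont.continuousAt (x := g)).eventually_ne hg)
  have hex : ∀ p : {p : (Fin (2 * h) → Fin m) × (Fin (2 * h) → Fin m) //
      Function.Injective p.1 ∧ Function.Injective p.2},
      ∃ X : (Fin (2 * h) → ℂ) → Fin m × Fin m → ℂ, Fam (fun j => (p.1.1 j, p.1.2 j)) X ∧
        ∀ s, permAt (X (bp ℂ s)) = g s := fun p =>
    perm_block two_ne_zero h m hm p.1.1 p.1.2 p.2.1 p.2.2 g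
  choose X hX hX' using hex
  refine ⟨ε, hε, Set.range (fun q : {p : (Fin (2 * h) → Fin m) × (Fin (2 * h) → Fin m) //
      Function.Injective p.1 ∧ Function.Injective p.2} × (Fin (2 * h) → Bool) =>
      X q.1 (bp ℂ q.2)), Set.finite_range _, ?_⟩
  intro f hf r c hr hc
  refine ⟨X ⟨(r, c), hr, hc⟩, hX ⟨(r, c), hr, hc⟩, ?_⟩
  apply hball
  rw [dist_pi_lt_iff hε]
  intro s
  rw [dist_eq_norm, ← hX' ⟨(r, c), hr, hc⟩ s]
  exact hf _ ⟨(⟨(r, c), hr, hc⟩, s), rfl⟩

end J4H36.VK
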