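import Pool.Agent.J4H36.VK.Relay
import Pool.Agent.J4H36.VK.Perm

/-!
# Read-once universality of the permanent
-/

namespace J4H36.VK

variable {F : Type} [Field F]

/-- Weight of a bit. -/
def wt (b : Bool) (t : F) : F := if b then t else 1 - t

/-- Number of private columns of the decoder with `h` inputs. -/
def nd : ℕ → ℕ
  | 0 => 0
  | h + 1 => nd h + (3 * 2 ^ h + 2)

lemma nd_eq (h : ℕ) : nd h + 3 = 3 * 2 ^ h + 2 * h := by
  induction h with
  | zero => rfl
  | succ h ih => rw [nd, pow_succ]; omega

lemma Emits.start : Emits (F := F) Empty Unit 1 0 (fun R _ _ _ x => x ()) := by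
  refine ⟨Unit, Empty, inferInstance, inferInstance, fun _ _ k => k.elim, fun _ _ => 1, rfl, rfl,
    ⟨fun j => j.elim, fun j => j.elim, fun j => j.elim, fun j => j.elim, fun _ j => j.elim,
      fun _ k => k.elim⟩, ?_⟩
  intro y R _ _ x
  simp [val, ext, MvPolynomial.coeff_C, ones]
  intro h
  exact absurd (by ext k; exact k.elim) h

theorem dec (h2 : (2 : F) ≠ 0) (h : ℕ) : ∃ (J : Type) (_ : Fintype J) (_ : DecidableEq J),
    Fintype.card J = h ∧ Emits J (J → Bool) (nd h + 1) (nd h)
      (fun R _ _ y x => ∑ a, algebraMap F R (∏ j, wt (a j) (y j)) * x a) := by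
  induction h with
  | zero =>
    refine ⟨Empty, inferInstance, inferInstance, rfl, ?_⟩
    refine (Emits.start.lin (fun _ _ => 1)).congr ?_
    intro R _ _ y x
    simp
  | succ h ih =>
    obtain ⟨J, hJ, hJd, hc, hE⟩ := ih
    refine ⟨Option J, inferInstance, inferInstance, by rw [Fintype.card_option, hc], ?_⟩
    have := relay h2 (B := Option J → Bool) (K := J → Bool) _ hE
      (fun a b => if (fun j => b (some j)) = a ∧ b none = false then 1 else 0)
      (fun a k => if a = k then 1 else 0)
      (fun k b => if (fun j => b (some j)) = k then (if b none then 1 else -1) else 0)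
      (fun y b => ∏ j, wt (b j) (y j)) (by
        intro y b
        rw [Fintype.prod_option, Finset.sum_eq_single (fun j => b (some j))]
        · simp only [true_and, ite_mul, one_mul, zero_mul, Finset.sum_ite_eq, Finset.mem_univ,
            if_true]
          cases b none
          · simp [wt]; ring
          · simp [wt]; ring
        · intro a _ ha
          simp [Ne.symm ha, ha]
        · intro h; exact absurd (Finset.mem_univ _) h)
    convert this using 1
    · rw [nd, Fintype.card_fun, Fintype.card_bool, hc]
    · rw [nd, Fintype.card_fun, Fintype.card_bool, hc]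

theorem enc (h2 : (2 : F) ≠ 0) (h : ℕ) : ∃ (J' : Type) (_ : Fintype J') (_ : DecidableEq J'),
    Fintype.card J' = h ∧ ∀ (I : Type) (n : ℕ) (v : (I → F) → (J' → Bool) → F),
    Emits I (J' → Bool) (n + 1) n (fun R _ _ y x => ∑ a, algebraMap F R (v y a) * x a) →
    Emits (I ⊕ J') Unit (n + nd h + 1) (n + nd h)
      (fun R _ _ y x => algebraMap F R (∑ a, v (fun i => y (.inl i)) a *
        ∏ j, wt (a j) (y (.inr j))) * x ()) := by
  induction h with
  | zero =>
    refine ⟨Empty, inferInstance, inferInstance, rfl, ?_⟩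
    intro I n v hE
    refine ((hE.lin (fun _ (_ : Unit) => 1)).reindex (Equiv.sumEmpty I Empty).symm).congr ?_
    intro R _ _ y x
    simp
  | succ h ih =>
    obtain ⟨J, hJ, hJd, hc, hE⟩ := ih
    refine ⟨Option J, inferInstance, inferInstance, by rw [Fintype.card_option, hc], ?_⟩
    intro I n v hI
    have h1 := relay h2 (B := J → Bool) (K := J → Bool) _ hI
      (fun a b => if (fun j => a (some j)) = b ∧ a none = false then 1 else 0)
      (fun a k => if (fun j => a (some j)) = k then (if a none then 1 else -1) else 0)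
      (fun k b => if k = b then 1 else 0)
      (fun y b => ∑ a : Option J → Bool, (if (fun j => a (some j)) = b then
        v (fun j => y (some j)) a * wt (a none) (y none) else 0)) (by
        intro y b
        apply Finset.sum_congr rfl
        intro a _
        by_cases hab : (fun j => a (some j)) = b
        · simp only [hab, true_and, mul_ite, mul_one, mul_zero, Finset.sum_ite_eq',
            Finset.mem_univ, if_true, ite_true]
          cases a none
          · simp [wt]; left; ring
          · simp [wt]
        · simp [hab])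
    have h3 := hE (Option I) _ _ h1
    let e : Option I ⊕ J ≃ I ⊕ Option J :=
      { toFun := fun s => match s with
          | .inl none => .inr none
          | .inl (some i) => .inl i
          | .inr j => .inr (some j)
        invFun := fun s => match s with
          | .inl i => .inl (some i)
          | .inr none => .inl none
          | .inr (some j) => .inr j
        left_inv := by rintro ((_ | _) | _) <;> rfl
        right_inv := by rintro (_ | (_ | _)) <;> rfl }
    have h4 := (h3.reindex e).congr (g := fun R _ _ y x => algebraMap F R (∑ a : Option J → Bool,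
        v (fun i => y (.inl i)) a * ∏ j, wt (a j) (y (.inr j))) * x ()) (by
      intro R _ _ y x
      congr 2
      simp only [Finset.sum_mul, ite_mul, zero_mul]
      rw [Finset.sum_comm]
      apply Finset.sum_congr rfl
      intro a _
      rw [Finset.sum_ite_eq, if_pos (Finset.mem_univ _), Fintype.prod_option]
      simp only [e, Equiv.coe_fn_mk, mul_assoc])
    convert h4 using 1
    · rw [nd, Fintype.card_fun, Fintype.card_bool, hc]; ring
    · rw [nd, Fintype.card_fun, Fintype.card_bool, hc]; ring

/-- Glueing decoder and encoder, and closing the last column. -/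
theorem core (h2 : (2 : F) ≠ 0) (h : ℕ) (J : Type) [Fintype J] [DecidableEq J]
    (hJ : Fintype.card J = 2 * h) (t : (J → Bool) → F) :
    Emits J Unit (2 * nd h + 1) (2 * nd h + 1)
      (fun R _ _ y _ => algebraMap F R (∑ a, t a * ∏ j, wt (a j) (y j))) := by
  obtain ⟨J1, f1, d1, c1, E1⟩ := dec h2 h
  obtain ⟨J2, f2, d2, c2, E2⟩ := enc (F := F) h2 h
  have e : J1 ⊕ J2 ≃ J := Fintype.equivOfCardEq (by rw [Fintype.card_sum, c1, c2, hJ]; ring)
  have s1 := (E1.lin (fun a b => t (fun j => Sum.elim a b (e.symm j)))).congr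
    (g := fun R _ _ y x => ∑ b : J2 → Bool, algebraMap F R
      (∑ a : J1 → Bool, (∏ j, wt (a j) (y j)) * t (fun j => Sum.elim a b (e.symm j))) * x b) (by
    intro R _ _ y x
    simp only [Finset.mul_sum, map_sum, map_mul, Finset.sum_mul, mul_assoc]
    rw [Finset.sum_comm])
  have s2 := ((E2 J1 (nd h) _ s1).extract ()).congr (g := fun R _ _ y x => algebraMap F R
      (∑ b : J2 → Bool, (∑ a : J1 → Bool, (∏ j, wt (a j) (y (.inl j))) *
        t (fun j => Sum.elim a b (e.symm j))) * ∏ j, wt (b j) (y (.inr j)))) (by
    intro R _ _ y x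
    simp only [Polynomial.algebraMap_apply, if_true, Polynomial.coeff_C_mul,
      Polynomial.coeff_X_one, mul_one])
  have s3 := (s2.reindex e).congr (g := fun R _ _ y _ =>
      algebraMap F R (∑ a, t a * ∏ j, wt (a j) (y j))) (by
    intro R _ _ y x
    congr 1
    rw [← Equiv.sum_comp (Equiv.arrowCongr e (Equiv.refl Bool)) (fun a => t a *
      ∏ j, wt (a j) (y j)),
      ← Equiv.sum_comp (Equiv.sumArrowEquivProdArrow J1 J2 Bool).symm, Fintype.sum_prod_type_right]
    apply Finset.sum_congr rfl
    intro b _
    rw [Finset.sum_mul]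
    apply Finset.sum_congr rfl
    intro a _
    rw [← Equiv.prod_comp e, Fintype.prod_sum_type]
    have : ∀ s : J1 ⊕ J2, (Equiv.arrowCongr e (Equiv.refl Bool))
      ((Equiv.sumArrowEquivProdArrow J1 J2 Bool).symm (a, b)) (e s) = Sum.elim a b s := by
      intro s; simp [Equiv.arrowCongr, Equiv.sumArrowEquivProdArrow]
    simp only [this, Sum.elim_inl, Sum.elim_inr]
    have h5 : (Equiv.arrowCongr e (Equiv.refl Bool))
      ((Equiv.sumArrowEquivProdArrow J1 J2 Bool).symm (a, b)) =
      fun j => Sum.elim a b (e.symm j) := by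
      funext j
      simp [Equiv.arrowCongr, Equiv.sumArrowEquivProdArrow]
    rw [h5]
    ring)
  convert s3 using 1
  · ring
  · ring

lemma Emits.pad {J : Type} {n : ℕ} {f : (J → F) → F}
    (h : Emits J Unit n n (fun R _ _ y _ => algebraMap F R (f y))) (m : ℕ) (hm : n ≤ m) :
    Emits J Unit m m (fun R _ _ y _ => algebraMap F R (f y)) := by
  induction m, hm using Nat.le_induction with
  | base => exact h
  | succ m _ ih =>
    refine ((ih.addRow (fun _ => 1)).extract ()).congr ?_
    intro R _ _ y x
    simp only [Polynomial.algebraMap_apply, if_true, map_one, Finset.univ_unique,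
      Finset.sum_singleton, one_mul, Polynomial.coeff_C_mul, Polynomial.coeff_X_one, mul_one]

lemma exists_equiv_extend {J ι : Type} [Fintype J] [Fintype ι] {m : ℕ}
    (hι : Fintype.card ι = m) (r0 : J → ι) (hr0 : Function.Injective r0) (r : J → Fin m)
    (hr : Function.Injective r) : ∃ e : ι ≃ Fin m, ∀ j, e (r0 j) = r j := by
  classical
  let e0 : {i // i ∈ Set.range r0} ≃ {i // i ∈ Set.range r} :=
    (Equiv.ofInjective r0 hr0).symm.trans (Equiv.ofInjective r hr)
  let e1 : ι ≃ Fin m := Fintype.equivFinOfCardEq hι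
  let e2 : {i // i ∈ Set.range (e1 ∘ r0)} ≃ {i // i ∈ Set.range r} :=
    (Equiv.ofInjective (e1 ∘ r0) (e1.injective.comp hr0)).symm.trans (Equiv.ofInjective r hr)
  refine ⟨e1.trans e2.extendSubtype, fun j => ?_⟩
  have hj : e1 (r0 j) ∈ Set.range (e1 ∘ r0) := ⟨j, rfl⟩
  rw [Equiv.trans_apply, Equiv.extendSubtype_apply_of_mem _ _ hj]
  have h1 : (Equiv.ofInjective (e1 ∘ r0) (e1.injective.comp hr0)).symm ⟨e1 (r0 j), hj⟩ = j := by
    rw [Equiv.symm_apply_eq]
    rfl
  simp only [e2, Equiv.trans_apply, h1]
  rfl

/-- **Read-once universality of the permanent.**  Let `m + 5 ≥ 6 * 2 ^ h + 4 * h`, and choose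
`2 h` positions of an `m × m` matrix in distinct rows and distinct columns.  Then for every
multilinear polynomial `f` in `2 h` variables (given by its values `t` on the cube), all other
entries can be filled with constants so that the permanent is `f`. -/
theorem universality (h2 : (2 : F) ≠ 0) (h m : ℕ) (hm : 6 * 2 ^ h + 4 * h ≤ m + 5)
    (J : Type) [Fintype J] [DecidableEq J] (hJ : Fintype.card J = 2 * h)
    (r c : J → Fin m) (hr : Function.Injective r) (hc : Function.Injective c)
    (t : (J → Bool) → F) :
    ∃ A : (J → F) → Matrix (Fin m) (Fin m) F,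
      (∀ y j, A y (r j) (c j) = y j) ∧
      (∀ i k, (∀ j, ¬ (r j = i ∧ c j = k)) → ∀ y y', A y i k = A y' i k) ∧
      ∀ y, (A y).permanent = ∑ a, t a * ∏ j, wt (a j) (y j) := by
  classical
  have hnd := nd_eq h
  obtain ⟨ι, κ, hι, hκ, A, N, c1, c2, ⟨r0, c0, hr0, hc0, p1, p2⟩, hval⟩ :=
    (core h2 h J hJ t).pad m (by omega)
  obtain ⟨e1, he1⟩ := exists_equiv_extend c1 r0 hr0 r hr
  obtain ⟨e2, he2⟩ := exists_equiv_extend c2 c0 hc0 c hc
  refine ⟨fun y => Matrix.of (fun i j => A y (e1.symm i) (e2.symm j)), ?_, ?_, ?_⟩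
  · intro y j
    simp only [Matrix.of_apply, ← he1, ← he2, Equiv.symm_apply_apply]
    exact p1 y j
  · intro i k hk y y'
    simp only [Matrix.of_apply]
    apply p2
    rintro j ⟨hj1, hj2⟩
    apply hk j
    rw [← he1, ← he2, hj1, hj2]
    simp
  · intro y
    rw [← sum_equiv_eq_permanent (A y) e1 e2, ← ext_prod_sum]
    have : val (A y) N F (fun _ => 0) = algebraMap F F (∑ a, t a * ∏ j, wt (a j) (y j)) :=
      hval y F (fun _ => 0)
    rw [Algebra.algebraMap_self, RingHom.id_apply] at this
    rw [← this, val]
    congr 1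
    apply Finset.prod_congr rfl
    intro i _
    simp

end J4H36.VK
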